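import Mathlib
import Pool.Agent.Y868.TC.H3

/-!
# Simultaneous primes: almost all systems with given constant terms

Systems `f_i = X (P_i + a_i X + b_i) + c_i`: the constant terms `c_i` (for instance `1` and `3`) and all
the coefficients other than those of `X` and `X²` are given. For all but a proportion `(log x)^(-U)` of
the choices of these two coefficients in each polynomial, the number of `m` with all `|f_i(m)|` prime
follows the formula of Bateman and Horn in all windows `(u, v] ⊆ [1, x]` at once; the constant is cut at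
a power of `log x`.
-/

set_option autoImplicit false

namespace Pool.Agent.Results.MP_2dba45_nt.AlmostAllSystems

open Finset
open Polynomial (X C)
open scoped Polynomial

/-- the polynomial `X (P + a X + b) + c` -/
noncomputable def poly (P : ℤ[X]) (a b : ℕ) (c : ℤ) : ℤ[X] := X * (P + C (a : ℤ) * X + C (b : ℤ)) + C c

/-- the number of `m` with `u < m ≤ v` for which all `|f_i(m)|` are primes -/
noncomputable def count {k : ℕ} (f : Fin k → ℤ[X]) (u v : ℕ) : ℕ :=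
  #((Ioc u v).filter (fun m : ℕ => ∀ i, ((f i).eval (m : ℤ)).natAbs.Prime))

/-- the product of the `f_i` has no fixed prime divisor -/
def NoFixed {k : ℕ} (f : Fin k → ℤ[X]) : Prop := ∀ p : ℕ, p.Prime → ∃ n : ℤ, ¬ (p : ℤ) ∣ ∏ i, (f i).eval n

/-- the number of zeros modulo `p` of the product of the `f_i` -/
noncomputable def omega {k : ℕ} (f : Fin k → ℤ[X]) (p : ℕ) : ℕ :=
  #((range p).filter (fun n : ℕ => (p : ℤ) ∣ ∏ i, (f i).eval (n : ℤ)))

/-- the constant of Bateman and Horn cut at `z` -/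
noncomputable def sing {k : ℕ} (f : Fin k → ℤ[X]) (z : ℕ) : ℝ :=
  ∏ p ∈ (Icc 1 z).filter Nat.Prime, (1 - (omega f p : ℝ) / p) / (1 - 1 / (p : ℝ)) ^ k

/-- the sum of `∏ 1 / log |f_i(m)|` over the `m` in `(u, v]` with all `|f_i(m)| ≥ 2` -/
noncomputable def mainSum {k : ℕ} (f : Fin k → ℤ[X]) (u v : ℕ) : ℝ :=
  ∑ m ∈ (Ioc u v).filter (fun m : ℕ => ∀ i, 2 ≤ |(f i).eval (m : ℤ)|), ∏ i, 1 / Real.log (((|(f i).eval (m : ℤ)| : ℤ)) : ℝ)

/-- **Almost all systems, all windows.** Let `k ≥ 1`, `d ≥ 2` and `U, K ≥ 0`. There are `C₀`, `E₁` such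
that the following holds for every `E` if `x ≥ x₀(E)`. Let `(log x)^E₁ ≤ z ≤ (log x)^E`,
`(log x)^C₀ ≤ D ≤ x^K` and `D x (log x)^(-K) ≤ B ≤ D x (log x)^K`. Let `P_1, …, P_k` be integral
polynomials of degrees less than `d` with `|P_i(m)| ≤ B (log x)^K` for `1 ≤ m ≤ x`, and let
`c_1, …, c_k` be nonzero integers with `|c_i| ≤ B x (log x)^K`. For all but `(D B)^k / (log x)^U` of the
`e = ((a_1, b_1), …, (a_k, b_k))` with `1 ≤ a_i ≤ D` and `1 ≤ b_i ≤ B`, the following holds for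
`f_i = X (P_i + a_i X + b_i) + c_i`: if these are not constant and there is no fixed prime divisor, then
for all `u ≤ v ≤ x` the number of the `m` in `(u, v]` with all `|f_i(m)|` prime differs from
`𝔖_z(f) ∑ ∏ 1 / log |f_i(m)|` by at most `𝔖_z(f) x / (log x)^U`. -/
theorem result (k d U K : ℕ) (hk : 1 ≤ k) (hd : 2 ≤ d) : ∃ C₀ E₁ : ℕ, ∀ E : ℕ, ∃ x₀ : ℕ, ∀ x : ℕ, x₀ ≤ x → ∀ z : ℕ,
    Real.log x ^ E₁ ≤ z → (z : ℝ) ≤ Real.log x ^ E → ∀ D B : ℕ, Real.log x ^ C₀ ≤ D → (D : ℝ) ≤ (x : ℝ) ^ K →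
    (D : ℝ) * x ≤ B * Real.log x ^ K → (B : ℝ) ≤ D * x * Real.log x ^ K →
    ∀ P : Fin k → ℤ[X], (∀ i, (P i).natDegree + 1 ≤ d) →
    (∀ i, ∀ m ∈ Icc 1 x, ((|(P i).eval (m : ℤ)| : ℤ) : ℝ) ≤ B * Real.log x ^ K) →
    ∀ c : Fin k → ℤ, (∀ i, c i ≠ 0) → (∀ i, ((|c i| : ℤ) : ℝ) ≤ B * x * Real.log x ^ K) →
    ∃ Bad ⊆ Fintype.piFinset (fun _ : Fin k => Icc 1 D ×ˢ Icc 1 B),
      (#Bad : ℝ) ≤ ((D : ℝ) * B) ^ k / Real.log x ^ U ∧
      ∀ e ∈ Fintype.piFinset (fun _ : Fin k => Icc 1 D ×ˢ Icc 1 B), e ∉ Bad →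
        ∀ f : Fin k → ℤ[X], (∀ i, f i = poly (P i) (e i).1 (e i).2 (c i)) → (∀ i, 1 ≤ (f i).natDegree) → NoFixed f →
        ∀ u v : ℕ, u ≤ v → v ≤ x →
          |(count f u v : ℝ) - sing f z * mainSum f u v| ≤ sing f z * x / Real.log x ^ U :=
  Pool.Agent.Y868.TC.Sys.final k d U K hk hd

end Pool.Agent.Results.MP_2dba45_nt.AlmostAllSystems
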