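import Pool.Agent.Y859.SP.Sys

set_option autoImplicit false

/-!
# Simultaneous almost prime values of `m ^ 2 + 1` and `m ^ 2 + 3`: the density in all windows
-/

namespace Pool.Agent.Results.MP_2dba45_nt.DensityInAllWindows

open Finset Filter

/-- Both `m ^ 2 + 1` and `m ^ 2 + 3` have at most `2 r` prime factors (with multiplicity), all of
them larger than `X ^ (1 / r)`. -/
def Good (r X m : ℕ) : Prop :=
  (m ^ 2 + 1).primeFactorsList.length ≤ 2 * r ∧ (m ^ 2 + 3).primeFactorsList.length ≤ 2 * r ∧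
    ∀ p : ℕ, p.Prime → p ∣ (m ^ 2 + 1) * (m ^ 2 + 3) → (X : ℝ) ^ (1 / (r : ℝ)) < (p : ℝ)

open Classical in
/-- The number of the good `m` in `(u, v]`. -/
noncomputable def N (r X u v : ℕ) : ℕ := ((Finset.Ioc u v).filter (fun m => Good r X m)).card

open Classical in
/-- The sieve density: the product of `1 - ρ(p) / p` over the primes `p ≤ X ^ (1 / r)`, where `ρ(p)` is
the number of the `m` mod `p` with `p ∣ (m ^ 2 + 1) (m ^ 2 + 3)`. -/
noncomputable def V (r X : ℕ) : ℝ :=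
  ∏ p ∈ (Finset.range (⌊(X : ℝ) ^ (1 / (r : ℝ))⌋₊ + 1)).filter Nat.Prime,
    (1 - (((Finset.range p).filter
      (fun m : ℕ => p ∣ (m ^ 2 + 1) * (m ^ 2 + 3))).card : ℝ) / p)

/-- All windows around `n` inside `(X, X + Y]` of length at least `K / V` have the density `V` up to
`ε`. -/
def AllWindows (r : ℕ) (K ε : ℝ) (X Y n : ℕ) : Prop :=
  ∀ u v : ℕ, X ≤ u → u < n → n ≤ v → v ≤ X + Y → K ≤ ((v : ℝ) - u) * V r X →
    |(N r X u v : ℝ) - (v - u) * V r X| ≤ ε * ((v - u) * V r X)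

open Pool.Agent.TH464.PO Pool.Agent.W123.RU.Poly Pool.Agent.W123.RP Pool.Agent.Y859.SP

open Classical in
/-- **The density of the simultaneous almost prime values in all windows around almost all integers
and around almost all good integers.** -/
theorem result (θ : ℝ) (hθ : 0 < θ) (ε : ℝ) (hε : 0 < ε) :
    ∃ (K : ℝ) (r0 : ℕ), 0 < K ∧ ∀ r : ℕ, r0 ≤ r → ∀ᶠ X : ℕ in atTop,
      ∀ Y : ℕ, (X : ℝ) ^ θ ≤ Y → Y ≤ X →
        (((Finset.Ioc X (X + Y)).filter (fun n => ¬ AllWindows r K ε X Y n)).card : ℝ) ≤ ε * Y ∧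
        (((Finset.Ioc X (X + Y)).filter
          (fun n => Good r X n ∧ ¬ AllWindows r K ε X Y n)).card : ℝ) ≤ ε * (Y * V r X) := by
  obtain ⟨K, r0, hK, h0⟩ := exact_poly sy sy_sys sy_noTr θ hθ ε hε
  refine ⟨K, max r0 1, hK, ?_⟩
  intro r hr
  filter_upwards [h0 r ((le_max_left _ _).trans hr), sf_Good r ((le_max_right _ _).trans hr)]
    with X hX hap
  intro Y hXY hYX
  obtain ⟨hm1, hm2⟩ := hX Y hXY hYX
  have hV : Vq (Q sy) ⌊(X : ℝ) ^ (1 / (r : ℝ))⌋₊ = V r X := sy_V _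
  have hex : ∀ n : ℕ, Exact (Sf (Q sy) ⌊(X : ℝ) ^ (1 / (r : ℝ))⌋₊)
        (Vq (Q sy) ⌊(X : ℝ) ^ (1 / (r : ℝ))⌋₊) K ε X Y n → AllWindows r K ε X Y n := by
    intro n hex u v hu hun hnv hv hKV
    have h1 := hex u v hu hun hnv hv (by rw [hV]; exact hKV)
    rw [hV] at h1
    have hN : N r X u v = Cc (Sf (Q sy) ⌊(X : ℝ) ^ (1 / (r : ℝ))⌋₊) u v := by
      unfold N Cc
      congr 1
      apply Finset.filter_congr
      intro m hm
      rw [mem_Ioc] at hm
      exact (hap m (by omega)).symm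
    rw [hN]
    exact h1
  constructor
  · refine le_trans ?_ hm1
    apply Nat.cast_le.2
    apply card_le_card
    intro n hn
    rw [mem_filter] at hn ⊢
    exact ⟨hn.1, fun h => hn.2 (hex n h)⟩
  · rw [← hV]
    refine le_trans ?_ hm2
    apply Nat.cast_le.2
    apply card_le_card
    intro n hn
    rw [mem_filter] at hn ⊢
    refine ⟨hn.1, (hap n ?_).2 hn.2.1, fun h => hn.2.2 (hex n h)⟩
    have := mem_Ioc.1 hn.1
    omega

end Pool.Agent.Results.MP_2dba45_nt.DensityInAllWindows
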