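import Pool.Agent.Y859.SP.Sys
import Pool.Agent.Y859.SP.GapPoly

set_option autoImplicit false

/-!
# The gaps between simultaneous almost prime values of `m ^ 2 + 1` and `m ^ 2 + 3`
-/

namespace Pool.Agent.Results.MP_2dba45_nt.GammaLawForGaps

open Finset Filter

/-- Both `m ^ 2 + 1` and `m ^ 2 + 3` have at most `2 r` prime factors (with multiplicity), all of
them larger than `X ^ (1 / r)`. -/
def Good (r X m : ℕ) : Prop :=
  (m ^ 2 + 1).primeFactorsList.length ≤ 2 * r ∧ (m ^ 2 + 3).primeFactorsList.length ≤ 2 * r ∧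
    ∀ p : ℕ, p.Prime → p ∣ (m ^ 2 + 1) * (m ^ 2 + 3) → (X : ℝ) ^ (1 / (r : ℝ)) < (p : ℝ)

open Classical in
/-- The sieve density: the product of `1 - ρ(p) / p` over the primes `p ≤ X ^ (1 / r)`, where `ρ(p)` is
the number of the `m` mod `p` with `p ∣ (m ^ 2 + 1) (m ^ 2 + 3)`. -/
noncomputable def V (r X : ℕ) : ℝ :=
  ∏ p ∈ (Finset.range (⌊(X : ℝ) ^ (1 / (r : ℝ))⌋₊ + 1)).filter Nat.Prime,
    (1 - (((Finset.range p).filter
      (fun m : ℕ => p ∣ (m ^ 2 + 1) * (m ^ 2 + 3))).card : ℝ) / p)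

open Classical in
/-- The number of the good `b` in `(X, X + Y]` with fewer than `k` good integers in `[b - T, b)`. -/
noncomputable def Near (r k T X Y : ℕ) : ℕ :=
  ((Finset.Ioc X (X + Y)).filter
    (fun b => Good r X b ∧ ((Finset.Ico (b - T) b).filter (fun m => Good r X m)).card < k)).card

open Pool.Agent.TH464.PO Pool.Agent.W123.RU.Poly Pool.Agent.W123.RP Pool.Agent.Y859.SP

open Classical in
/-- **The distances between the simultaneous almost prime values follow the Gamma laws of a Poisson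
process**, in all short intervals. -/
theorem result (θ : ℝ) (hθ : 0 < θ) (k0 : ℕ) (x0 ε : ℝ) (hε : 0 < ε) :
    ∃ r0 : ℕ, ∀ r : ℕ, r0 ≤ r → ∀ᶠ X : ℕ in atTop, ∀ Y : ℕ, (X : ℝ) ^ θ ≤ Y → Y ≤ X →
      ∀ k T : ℕ, (k ≤ k0 ∨ T * V r X ≤ x0) →
        |(Near r k T X Y : ℝ) - Y * V r X * ∑ j ∈ Finset.range k,
          Real.exp (-(T * V r X)) * (T * V r X) ^ j / j.factorial| ≤ ε * (Y * V r X) := by
  obtain ⟨r0, h0⟩ := gap_poly sy sy_sys sy_noTr θ hθ k0 x0 ε hε
  refine ⟨max r0 1, ?_⟩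
  intro r hr
  filter_upwards [h0 r ((le_max_left _ _).trans hr), sf_Good r ((le_max_right _ _).trans hr)]
    with X hX hap
  intro Y hXY hYX k T hkT
  have hV : Vq (Q sy) ⌊(X : ℝ) ^ (1 / (r : ℝ))⌋₊ = V r X := sy_V _
  have h1 := hX Y hXY k T (by rw [hV]; exact hkT)
  rw [hV] at h1
  have hN : Near r k T X Y = Pk (Sf (Q sy) ⌊(X : ℝ) ^ (1 / (r : ℝ))⌋₊) k T X Y := by
    unfold Near Pk
    congr 1
    apply Finset.filter_congr
    intro b hb
    rw [mem_Ioc] at hb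
    have e1 : Sf (Q sy) ⌊(X : ℝ) ^ (1 / (r : ℝ))⌋₊ b ↔ Good r X b := hap b (by omega)
    have e2 : (Finset.Ico (b - T) b).filter (fun m => Good r X m) =
        (Finset.Ico (b - T) b).filter (Sf (Q sy) ⌊(X : ℝ) ^ (1 / (r : ℝ))⌋₊) := by
      apply Finset.filter_congr
      intro m hm
      rw [mem_Ico] at hm
      exact (hap m (by omega)).symm
    rw [e1, e2]
  rw [hN]
  exact h1

end Pool.Agent.Results.MP_2dba45_nt.GammaLawForGaps
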