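import Pool.Agent.TH977.PW.Inst
import Pool.Agent.Y859.SP.Sys

set_option autoImplicit false

/-!
# Regular neighbourhoods of the `m` with `m ^ 2 + 1` and `m ^ 2 + 3` both prime

Let `R r` be the set of the `m` for which all prime factors of `(m ^ 2 + 1) (m ^ 2 + 3)` are larger than
`m ^ (1 / r)`; it contains all admissible `m`. For an ARBITRARY subset `A` of `R r`, in every
short interval all but a small proportion of the elements of `A` are regular points of `A`.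
-/

namespace Pool.Agent.Results.MP_2dba45_nt.RegularPoints

open Finset Filter
open Pool.Agent.TH977.PW (N Irregular)
open Pool.Agent.Y859.SP

/-- All prime factors of `(m ^ 2 + 1) (m ^ 2 + 3)` are larger than `m ^ (1 / r)`. -/
def R (r : ℕ) : Set ℕ :=
  {m | ∀ p : ℕ, p.Prime → p ∣ (m ^ 2 + 1) * (m ^ 2 + 3) → (m : ℝ) ^ (1 / (r : ℝ)) < (p : ℝ)}

lemma rpow_lt_sq (r m e : ℕ) (hr : 2 ≤ r) (he : 1 ≤ e) :
    (m : ℝ) ^ (1 / (r : ℝ)) < ((m ^ 2 + e : ℕ) : ℝ) := by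
  have hr1 : (1 : ℝ) < r := by exact_mod_cast (by omega : 1 < r)
  have hm : (0 : ℝ) ≤ m := Nat.cast_nonneg m
  have he1 : (1 : ℝ) ≤ e := by exact_mod_cast he
  push_cast
  rcases lt_or_ge m 1 with h | h
  · have : m = 0 := by omega
    subst this
    rw [Nat.cast_zero, Real.zero_rpow (by positivity)]
    nlinarith
  · have hm1 : (1 : ℝ) ≤ m := by exact_mod_cast h
    calc (m : ℝ) ^ (1 / (r : ℝ)) ≤ (m : ℝ) ^ (1 : ℝ) := by
          apply Real.rpow_le_rpow_of_exponent_le hm1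
          rw [div_le_one (by linarith)]
          exact hr1.le
      _ = m := Real.rpow_one _
      _ < _ := by nlinarith

/-- **Regular neighbourhoods of the `m` with `m ^ 2 + 1` and `m ^ 2 + 3` both prime.** -/
theorem result (θ : ℝ) (hθ : 0 < θ) (hθ1 : θ ≤ 1) :
    ∃ r₀ : ℕ, 2 ≤ r₀ ∧ ∀ r : ℕ, r₀ ≤ r →
      (∀ m : ℕ, (m ^ 2 + 1).Prime → (m ^ 2 + 3).Prime → m ∈ R r) ∧
      (∃ κ : ℝ, 0 < κ ∧ ∀ᶠ X : ℕ in atTop, ∀ Y : ℕ, (X : ℝ) ^ θ ≤ Y → Y ≤ X →
        κ * Y / Real.log X ^ 2 ≤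
          N {m | m ∈ R r ∧ (m ^ 2 + 1).primeFactorsList.length ≤ r ∧
            (m ^ 2 + 3).primeFactorsList.length ≤ r} X (X + Y)) ∧
      ∀ ε : ℝ, 0 < ε → ∃ c : ℝ, 0 < c ∧ ∀ δ : ℝ, 0 < δ → ∃ B : ℕ,
        ∀ᶠ X : ℕ in atTop, ∀ Y : ℕ, (X : ℝ) ^ θ ≤ Y → 2 * Y ≤ X → ∀ A : Set ℕ, A ⊆ R r →
          (N (Irregular A 2 c δ B X Y) X (X + Y) : ℝ) ≤ ε * Y / Real.log X ^ 2 := by
  have e1 : ∀ m : ℕ, (m : ℤ) ^ 2 + cs 0 = ((m ^ 2 + 1 : ℕ) : ℤ) := by
    intro m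
    simp [cs]
  have e3 : ∀ m : ℕ, (m : ℤ) ^ 2 + cs 1 = ((m ^ 2 + 3 : ℕ) : ℤ) := by
    intro m
    simp [cs]
  obtain ⟨r0, hr0, h⟩ := Pool.Agent.TH977.PW.final sy sy_sys R
    (fun r => {m | m ∈ R r ∧ (m ^ 2 + 1).primeFactorsList.length ≤ r ∧
            (m ^ 2 + 3).primeFactorsList.length ≤ r}) 2 (by rw [Fintype.card_fin])
    (fun r m _ hm i p hp hd => by
      refine hm p hp ?_
      rw [sy_eval] at hd
      fin_cases i
      · change (p : ℤ) ∣ (m : ℤ) ^ 2 + cs 0 at hd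
        rw [e1, Int.natCast_dvd_natCast] at hd
        exact hd.mul_right _
      · change (p : ℤ) ∣ (m : ℤ) ^ 2 + cs 1 at hd
        rw [e3, Int.natCast_dvd_natCast] at hd
        exact hd.mul_left _)
    (fun r m h2r h1 h2 => by
      refine ⟨fun p hp hd => ?_, ?_, ?_⟩
      · rcases hp.dvd_mul.1 hd with h3 | h3
        · refine h1 0 p hp ?_
          rw [sy_eval, e1]
          exact Int.natCast_dvd_natCast.2 h3
        · refine h1 1 p hp ?_
          rw [sy_eval, e3]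
          exact Int.natCast_dvd_natCast.2 h3
      · have := h2 0
        rw [sy_eval, e1, Int.natAbs_natCast] at this
        exact this
      · have := h2 1
        rw [sy_eval, e3, Int.natAbs_natCast] at this
        exact this) θ hθ hθ1
  refine ⟨r0, hr0, fun r hr => ⟨?_, (h r hr).1, (h r hr).2⟩⟩
  intro m h1 h3 p hp hd
  have h2r : 2 ≤ r := hr0.trans hr
  rcases hp.dvd_mul.1 hd with h4 | h4
  · rw [(Nat.prime_dvd_prime_iff_eq hp h1).1 h4]
    exact rpow_lt_sq r m 1 h2r le_rfl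
  · rw [(Nat.prime_dvd_prime_iff_eq hp h3).1 h4]
    exact rpow_lt_sq r m 3 h2r (by norm_num)

end Pool.Agent.Results.MP_2dba45_nt.RegularPoints
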